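import Pool.Agent.J4H62.CD.Stm

/-! Project CD: all quotients of `L q i j` and `R q i j` in terms of
`u = 6 j / q`, `v = 6 i / q`, `s = 6 (i + j) / q`. -/

set_option autoImplicit false

namespace Pool.Agent.J4H45.CD

open Pool.Agent.J4H62.CD

theorem div_six (q j : ℕ) :
    (3 * j) / q = (6 * j / q) / 2 ∧ (2 * j) / q = (6 * j / q) / 3 ∧ j / q = (6 * j / q) / 6 := by
  refine ⟨?_, ?_, ?_⟩
  · rw [Nat.div_div_eq_div_mul, show 6 * j = 3 * j * 2 by ring, Nat.mul_div_mul_right _ _ (by norm_num)]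
  · rw [Nat.div_div_eq_div_mul, show 6 * j = 2 * j * 3 by ring, Nat.mul_div_mul_right _ _ (by norm_num)]
  · rw [Nat.div_div_eq_div_mul, show 6 * j = j * 6 by ring, Nat.mul_div_mul_right _ _ (by norm_num)]

theorem sum_six (q i j : ℕ) (hq : 1 ≤ q) :
    6 * j / q + 6 * i / q ≤ 6 * (i + j) / q ∧ 6 * (i + j) / q ≤ 6 * j / q + 6 * i / q + 1 := by
  have h : 6 * (i + j) = 6 * j + 6 * i := by ring
  rw [h, Nat.add_div (by omega)]
  split_ifs <;> omega

/-- `L` and `R` through `u, v, s` -/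
theorem LR (q i j : ℕ) : ∃ u v s : ℕ, u = 6 * j / q ∧ v = 6 * i / q ∧ s = 6 * (i + j) / q ∧
    L q i j = u / 2 + u / 3 + u / 6 + v / 2 + v / 3 + v / 6 + s / 2 ∧
    R q i j = u + v + s / 3 + s / 6 := by
  refine ⟨_, _, _, rfl, rfl, rfl, ?_, ?_⟩
  · unfold L
    rw [(div_six q j).1, (div_six q j).2.1, (div_six q j).2.2, (div_six q i).1, (div_six q i).2.1,
      (div_six q i).2.2, (div_six q (i + j)).1]
  · unfold R
    rw [(div_six q (i + j)).2.1, (div_six q (i + j)).2.2]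

theorem t_FL : S_FL := by
  intro q i j hq
  obtain ⟨u, v, s, hu, hv, hs, hL, hR⟩ := LR q i j
  obtain ⟨h1, h2⟩ := sum_six q i j hq
  rw [← hu, ← hv, ← hs] at h1 h2
  rw [hL, hR]
  omega

/-- `2 n - 1 = q t` with `3 < q` gives `6 n / q = 3 t`, `t` odd -/
theorem s_val (q n t : ℕ) (hq : 3 < q) (hn : 1 ≤ n) (h : 2 * n - 1 = q * t) :
    6 * n / q = 3 * t ∧ t % 2 = 1 := by
  constructor
  · have e : 6 * n = 3 + q * (3 * t) := by
      have : 6 * n = 3 * (2 * n - 1) + 3 := by omega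
      rw [this, h]
      ring
    rw [e, Nat.add_mul_div_left _ _ (by omega), Nat.div_eq_of_lt hq]
    ring
  · rcases Nat.mod_two_eq_zero_or_one t with h0 | h0
    · exfalso
      have h1 : (q * t) % 2 = 0 := by rw [Nat.mul_mod, h0]; simp
      omega
    · exact h0

theorem t_FG : S_FG := by
  intro q i j hq hn hd
  obtain ⟨t, ht⟩ := hd
  obtain ⟨u, v, s, hu, hv, hs, hL, hR⟩ := LR q i j
  obtain ⟨h1, h2⟩ := sum_six q i j (by omega)
  obtain ⟨h3, h4⟩ := s_val q (i + j) t hq hn ht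
  rw [← hu, ← hv, ← hs] at h1 h2
  rw [← hs] at h3
  rw [hL, hR]
  omega

theorem t_T1 : S_T1 := by
  intro i j hn hd
  obtain ⟨t, ht⟩ := hd
  by_cases h0 : j % 3 = 0
  · exact Or.inl (Nat.dvd_of_mod_eq_zero h0)
  by_cases h1 : i % 3 = 0
  · exact Or.inr (Or.inl (Nat.dvd_of_mod_eq_zero h1))
  right; right
  have hj : j % 3 = 1 := by omega
  have hi : i % 3 = 1 := by omega
  obtain ⟨J, rfl⟩ : ∃ J, j = 3 * J + 1 := ⟨j / 3, by omega⟩
  obtain ⟨I, rfl⟩ : ∃ I, i = 3 * I + 1 := ⟨i / 3, by omega⟩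
  have e1 : (3 * (3 * J + 1)) / 3 = 3 * J + 1 := by omega
  have e2 : (2 * (3 * J + 1)) / 3 = 2 * J := by omega
  have e3 : (3 * J + 1) / 3 = J := by omega
  have e4 : (3 * (3 * I + 1)) / 3 = 3 * I + 1 := by omega
  have e5 : (2 * (3 * I + 1)) / 3 = 2 * I := by omega
  have e6 : (3 * I + 1) / 3 = I := by omega
  have e7 : (3 * (3 * I + 1 + (3 * J + 1))) / 3 = 3 * I + 3 * J + 2 := by omega
  have e8 : (6 * (3 * J + 1)) / 3 = 6 * J + 2 := by omega
  have e9 : (6 * (3 * I + 1)) / 3 = 6 * I + 2 := by omega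
  have e10 : (2 * (3 * I + 1 + (3 * J + 1))) / 3 = 2 * I + 2 * J + 1 := by omega
  have e11 : (3 * I + 1 + (3 * J + 1)) / 3 = I + J := by omega
  unfold L R
  rw [e1, e2, e3, e4, e5, e6, e7, e8, e9, e10, e11]
  omega

theorem t_T2 : S_T2 := by
  intro q i j hq hn hd hj
  obtain ⟨t, ht⟩ := hd
  obtain ⟨m, rfl⟩ := hj
  obtain ⟨u, v, s, hu, hv, hs, hL, hR⟩ := LR (3 * q) i (q * m)
  obtain ⟨h3, h4⟩ := s_val (3 * q) (i + q * m) t (by omega) hn ht
  rw [← hs] at h3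
  by_cases hm : m % 3 = 0
  · left
    obtain ⟨k, hk⟩ := Nat.dvd_of_mod_eq_zero hm
    exact ⟨k, by rw [hk]; ring⟩
  right
  have hu2 : u = 2 * m := by
    rw [hu, show 6 * (q * m) = (3 * q) * (2 * m) by ring, Nat.mul_div_cancel_left _ (by omega)]
  have hs2 : s = v + 2 * m := by
    rw [hs, hv, show 6 * (i + q * m) = 6 * i + (3 * q) * (2 * m) by ring,
      Nat.add_mul_div_left _ _ (by omega)]
  rw [hL, hR]
  obtain ⟨r, hr⟩ : ∃ r, t = 2 * r + 1 := ⟨t / 2, by omega⟩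
  rcases (by omega : m % 3 = 1 ∨ m % 3 = 2) with h | h
  · obtain ⟨M, hM⟩ : ∃ M, m = 3 * M + 1 := ⟨m / 3, by omega⟩
    obtain ⟨w, hw⟩ : ∃ w, v = 6 * w + 1 := ⟨v / 6, by omega⟩
    have e0 : s = 6 * r + 3 := by omega
    have e1 : u = 6 * M + 2 := by omega
    rw [e0, e1, hw]
    omega
  · obtain ⟨M, hM⟩ : ∃ M, m = 3 * M + 2 := ⟨m / 3, by omega⟩
    obtain ⟨w, hw⟩ : ∃ w, v = 6 * w + 5 := ⟨v / 6, by omega⟩
    have e0 : s = 6 * r + 3 := by omega
    have e1 : u = 6 * M + 4 := by omega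
    rw [e0, e1, hw]
    omega

theorem t_T3 : S_T3 := by
  intro q i j hq hn hd hnd hj
  obtain ⟨t, ht⟩ := hd
  obtain ⟨m, rfl⟩ := hj
  obtain ⟨u, v, s, hu, hv, hs, hL, hR⟩ := LR (3 * q) i (q * m)
  have h3t : t % 3 ≠ 0 := by
    intro h0
    obtain ⟨k, hk⟩ := Nat.dvd_of_mod_eq_zero h0
    exact hnd ⟨k, by rw [ht, hk]; ring⟩
  have h4 : t % 2 = 1 := by
    rcases Nat.mod_two_eq_zero_or_one t with h0 | h0
    · exfalso
      have h1 : (q * t) % 2 = 0 := by rw [Nat.mul_mod, h0]; simp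
      omega
    · exact h0
  have hst : s = t := by
    have e : 6 * (i + q * m) = 3 + (3 * q) * t := by
      have : 6 * (i + q * m) = 3 * (2 * (i + q * m) - 1) + 3 := by omega
      rw [this, ht]
      ring
    rw [hs, e, Nat.add_mul_div_left _ _ (by omega), Nat.div_eq_of_lt (by omega)]
    ring
  have hu2 : u = 2 * m := by
    rw [hu, show 6 * (q * m) = (3 * q) * (2 * m) by ring, Nat.mul_div_cancel_left _ (by omega)]
  have hs2 : s = v + 2 * m := by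
    rw [hs, hv, show 6 * (i + q * m) = 6 * i + (3 * q) * (2 * m) by ring,
      Nat.add_mul_div_left _ _ (by omega)]
  rw [hL, hR]
  obtain ⟨S, a, hS, ha⟩ : ∃ S a, s = 6 * S + a ∧ (a = 1 ∨ a = 5) :=
    ⟨s / 6, s % 6, by omega, by omega⟩
  obtain ⟨M, b, hM, hb⟩ : ∃ M b, m = 3 * M + b ∧ (b = 0 ∨ b = 1 ∨ b = 2) :=
    ⟨m / 3, m % 3, by omega, by omega⟩
  obtain ⟨V, c, hV, hc⟩ : ∃ V c, v = 6 * V + c ∧ c < 6 := ⟨v / 6, v % 6, by omega, by omega⟩
  have hu3 : u = 6 * M + 2 * b := by omega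
  have key : ∀ (X y : ℕ), (6 * X + y) / 2 = 3 * X + y / 2 ∧ (6 * X + y) / 3 = 2 * X + y / 3 ∧
      (6 * X + y) / 6 = X + y / 6 := by
    intro X y
    refine ⟨by omega, by omega, by omega⟩
  rw [hu3, hV, hS, (key M (2 * b)).1, (key M (2 * b)).2.1, (key M (2 * b)).2.2, (key V c).1,
    (key V c).2.1, (key V c).2.2, (key S a).1, (key S a).2.1, (key S a).2.2]
  rcases ha with rfl | rfl <;> rcases hb with rfl | rfl | rfl <;> interval_cases c <;> omega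

end Pool.Agent.J4H45.CD
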